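import Pool.Agent.H6.LD.Stm

/-! Crew LD, part BND. -/

set_option autoImplicit false

open Filter Topology

namespace Pool.Agent.H33.LD

open Pool.Agent.H6.LD

open scoped Classical in
/-- the term of `k` -/
noncomputable def I (E : ℕ → Prop) (k : ℕ) : ℝ := if E k then (1 : ℝ) / k else 0

theorem I_pos {E : ℕ → Prop} {k : ℕ} (h : E k) : I E k = 1 / k := if_pos h

theorem I_neg {E : ℕ → Prop} {k : ℕ} (h : ¬ E k) : I E k = 0 := if_neg h

theorem I_nonneg (E : ℕ → Prop) (k : ℕ) : 0 ≤ I E k := by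
  unfold I
  split_ifs
  · positivity
  · exact le_rfl

theorem LS_eq (E : ℕ → Prop) (x : ℕ) : LS E x = ∑ k ∈ Finset.Icc 1 x, I E k := by
  unfold LS I
  rw [Finset.sum_filter]

theorem LS_mono {E F : ℕ → Prop} (h : ∀ k, E k → F k) (x : ℕ) : LS E x ≤ LS F x := by
  rw [LS_eq, LS_eq]
  apply Finset.sum_le_sum
  intro k _
  by_cases hE : E k
  · rw [I_pos hE, I_pos (h k hE)]
  · rw [I_neg hE]
    exact I_nonneg F k

theorem cover (y x : ℕ) :
    LS (fun k => ¬ Bd 2 k) x ≤ LS Good x +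
      ∑ p ∈ (Finset.Ioc 2 y).filter Nat.Prime, LS (fun k => ¬ Bd 2 k ∧ Bd p k) x +
      LS (fun k => ∃ p, p.Prime ∧ y < p ∧ Bd p k) x := by
  simp only [LS_eq]
  rw [Finset.sum_comm, ← Finset.sum_add_distrib, ← Finset.sum_add_distrib]
  apply Finset.sum_le_sum
  intro k _
  have h1 := I_nonneg Good k
  have h2 := I_nonneg (fun k => ∃ p, p.Prime ∧ y < p ∧ Bd p k) k
  have h3 : ∀ p ∈ (Finset.Ioc 2 y).filter Nat.Prime, 0 ≤ I (fun k => ¬ Bd 2 k ∧ Bd p k) k :=
    fun p _ => I_nonneg _ k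
  have h4 := Finset.sum_nonneg h3
  by_cases hb : Bd 2 k
  · rw [I_neg (E := fun k => ¬ Bd 2 k) (not_not.2 hb)]
    linarith
  · rw [I_pos (E := fun k => ¬ Bd 2 k) hb]
    by_cases hg : Good k
    · rw [I_pos hg]
      linarith
    · have hg' := hg
      unfold Good at hg'
      push Not at hg'
      obtain ⟨p, hp, hpk⟩ := hg'
      have hp2 : p ≠ 2 := by rintro rfl; exact hb hpk
      by_cases hy : y < p
      · rw [I_pos (E := fun k => ∃ p, p.Prime ∧ y < p ∧ Bd p k) ⟨p, hp, hy, hpk⟩]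
        linarith
      · have hm : p ∈ (Finset.Ioc 2 y).filter Nat.Prime := by
          rw [Finset.mem_filter, Finset.mem_Ioc]
          have := hp.two_le
          exact ⟨⟨by omega, by omega⟩, hp⟩
        have h5 := Finset.single_le_sum h3 hm
        rw [I_pos (E := fun k => ¬ Bd 2 k ∧ Bd p k) ⟨hb, hpk⟩] at h5
        linarith

theorem t_BND (hPAIR : S_PAIR) (hTAIL : S_TAIL) (hELL : S_ELL) (hNUM : S_NUM) (_hAAB : S_AAB) :
    S_BND := by
  intro d hd
  obtain ⟨hP1, hP2, hP3⟩ := hPAIR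
  obtain ⟨hN1, hN2⟩ := hNUM
  have hev : ∀ᶠ x : ℕ in atTop, 0 < Real.log x := by
    filter_upwards [eventually_ge_atTop 2] with x hx
    exact Real.log_pos (by exact_mod_cast (by omega : 1 < x))
  constructor
  · obtain ⟨y, hy⟩ := hTAIL (1 / 2000) (by norm_num)
    have hy' := hy y le_rfl
    have hlim : Tendsto (fun x : ℕ => (1 / Real.log x) * LS Good x +
        ∑ p ∈ (Finset.Ioc 2 y).filter Nat.Prime,
          (1 / Real.log x) * LS (fun k => ¬ Bd 2 k ∧ Bd p k) x + 1 / 2000) atTop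
        (𝓝 (d + ∑ p ∈ (Finset.Ioc 2 y).filter Nat.Prime, (1 - aa 2) * aa p + 1 / 2000)) := by
      refine (hd.add (tendsto_finsetSum _ fun p hp => ?_)).add tendsto_const_nhds
      rw [Finset.mem_filter, Finset.mem_Ioc] at hp
      exact hP1 p hp.2 (by omega)
    have hle : 1 - aa 2 ≤ d + ∑ p ∈ (Finset.Ioc 2 y).filter Nat.Prime, (1 - aa 2) * aa p +
        1 / 2000 := by
      refine le_of_tendsto_of_tendsto hP3 hlim ?_
      filter_upwards [hev, eventually_ge_atTop 2] with x hx hx2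
      have h1 := cover y x
      have h2 := hy' x hx2
      have h3 : (1 / Real.log x) * LS (fun k => ∃ p, p.Prime ∧ y < p ∧ Bd p k) x ≤ 1 / 2000 := by
        rw [one_div, inv_mul_le_iff₀ hx]
        linarith
      rw [← Finset.mul_sum]
      calc (1 / Real.log x) * LS (fun k => ¬ Bd 2 k) x
          ≤ (1 / Real.log x) * (LS Good x +
            ∑ p ∈ (Finset.Ioc 2 y).filter Nat.Prime, LS (fun k => ¬ Bd 2 k ∧ Bd p k) x +
            LS (fun k => ∃ p, p.Prime ∧ y < p ∧ Bd p k) x) :=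
            mul_le_mul_of_nonneg_left h1 (by positivity)
        _ ≤ _ := by rw [mul_add, mul_add]; linarith
    rw [← Finset.mul_sum] at hle
    have h1 : (0 : ℝ) ≤ 1 - aa 2 := by linarith
    have h2 := mul_le_mul_of_nonneg_left (hELL y) h1
    linarith
  · refine le_trans (le_of_tendsto_of_tendsto hd hP2 ?_) hN2
    filter_upwards [hev] with x hx
    apply mul_le_mul_of_nonneg_left _ (by positivity)
    exact LS_mono (fun k hk => ⟨hk 2 Nat.prime_two, hk 3 Nat.prime_three⟩) x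

end Pool.Agent.H33.LD
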