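import Pool.Agent.H6.LD.Stm

/-! Crew LD, parts NUM, AAB. -/

set_option autoImplicit false

namespace Pool.Agent.H33.LD

open Pool.Agent.H6.LD

theorem logle {a b : ℕ} {m n : ℕ} (ha : 1 ≤ a) (h : a ^ m ≤ b ^ n) :
    (m : ℝ) * Real.log a ≤ n * Real.log b := by
  have ha' : (0 : ℝ) < a := by exact_mod_cast ha
  have h1 : ((a : ℝ) ^ m) ≤ (b : ℝ) ^ n := by exact_mod_cast h
  have h2 := Real.log_le_log (pow_pos ha' m) h1
  rwa [Real.log_pow, Real.log_pow] at h2

theorem t_NUM : S_NUM := by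
  unfold S_NUM aa
  have l2 : 0 < Real.log 2 := Real.log_pos (by norm_num)
  have l3 : 0 < Real.log 3 := Real.log_pos (by norm_num)
  have h4 : Real.log 4 = 2 * Real.log 2 := by
    rw [show (4 : ℝ) = 2 ^ 2 by norm_num, Real.log_pow]; norm_num
  have a1 : (41 : ℝ) * Real.log 3 ≤ 65 * Real.log 2 := by
    have := logle (a := 3) (b := 2) (m := 41) (n := 65) (by norm_num) (by norm_num)
    exact_mod_cast this
  have a2 : (19 : ℝ) * Real.log 2 ≤ 12 * Real.log 3 := by
    have := logle (a := 2) (b := 3) (m := 19) (n := 12) (by norm_num) (by norm_num)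
    exact_mod_cast this
  obtain ⟨s, hs⟩ : ∃ s, s = Real.log 3 / Real.log 2 := ⟨_, rfl⟩
  have e3 : Real.log 3 = s * Real.log 2 := by rw [hs]; field_simp
  have s1 : s ≤ 65 / 41 := by
    rw [hs, div_le_div_iff₀ l2 (by norm_num)]; linarith
  have s2 : 19 / 12 ≤ s := by
    rw [hs, div_le_div_iff₀ (by norm_num) l2]; linarith
  have e1 : ((2 + 1 : ℕ) : ℝ) = 3 := by norm_num
  have e2 : ((3 + 1 : ℕ) : ℝ) = 4 := by norm_num
  have e5 : ((2 : ℕ) : ℝ) = 2 := by norm_num
  have e6 : ((3 : ℕ) : ℝ) = 3 := by norm_num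
  rw [e1, e2, e5]
  try rw [e6]
  rw [h4]
  have f1 : (Real.log 3 - Real.log 2) / Real.log 2 = s - 1 := by
    rw [hs]; field_simp
  have f2 : (2 * Real.log 2 - Real.log 3) / Real.log 3 = 2 / s - 1 := by
    rw [hs]; field_simp
  rw [f1, f2]
  have s0 : 0 < s := by linarith
  refine ⟨by linarith, ?_⟩
  have h5 : 2 / s * s = 2 := by field_simp
  have h6 : (1 - (s - 1)) * (1 - (2 / s - 1)) = 6 - 2 * s - 2 * (2 / s) := by
    linear_combination h5
  rw [h6]
  have h7 : 0 ≤ (2 * s + 2 * (2 / s) - 5.69) * s := by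
    have : (2 * s + 2 * (2 / s) - 5.69) * s = 2 * s ^ 2 + 4 - 5.69 * s := by
      linear_combination 2 * h5
    rw [this]
    nlinarith [mul_nonneg (sub_nonneg.2 s2) (show (0 : ℝ) ≤ s - 1.26 by linarith)]
  have h8 : 0 ≤ 2 * s + 2 * (2 / s) - 5.69 := nonneg_of_mul_nonneg_left h7 s0
  linarith

theorem t_AAB : S_AAB := by
  intro p hp
  unfold aa
  have hp2 : (2 : ℝ) ≤ p := by exact_mod_cast hp.two_le
  have hp0 : (0 : ℝ) < p := by linarith
  have hl : 0 < Real.log p := Real.log_pos (by linarith)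
  have hc : ((p + 1 : ℕ) : ℝ) = p + 1 := by push_cast; ring
  rw [hc]
  have h1 : Real.log ((p : ℝ) + 1) - Real.log p = Real.log (1 + 1 / p) := by
    rw [← Real.log_div (by linarith) hp0.ne']
    congr 1
    field_simp
  have h2 : Real.log (1 + 1 / (p : ℝ)) ≤ 1 / p := by
    have := Real.log_le_sub_one_of_pos (show (0 : ℝ) < 1 + 1 / p by positivity)
    linarith
  have h3 : 0 ≤ Real.log (1 + 1 / (p : ℝ)) := Real.log_nonneg (by
    have : (0 : ℝ) ≤ 1 / p := by positivity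
    linarith)
  have h4 : Real.log (1 + 1 / (p : ℝ)) ≤ Real.log p := by
    apply Real.log_le_log (by positivity)
    have : 1 / (p : ℝ) ≤ 1 := by
      rw [div_le_one hp0]; linarith
    linarith
  rw [h1]
  refine ⟨div_nonneg h3 hl.le, ?_, ?_⟩
  · rw [div_le_div_iff₀ hl (mul_pos hp0 hl)]
    have : Real.log (1 + 1 / (p : ℝ)) * (p * Real.log p) ≤ 1 / p * (p * Real.log p) :=
      mul_le_mul_of_nonneg_right h2 (mul_pos hp0 hl).le
    have e : 1 / (p : ℝ) * (p * Real.log p) = 1 * Real.log p := by field_simp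
    linarith
  · rw [div_le_one hl]
    exact h4

end Pool.Agent.H33.LD
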